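import Pool.Agent.MP_1376f1_pr.Mg.Conv
import Pool.Agent.MP_1376f1_pr.Mg.PB

set_option autoImplicit false

namespace Pool.Agent.Results.MP_1376f1_pr.HittingTimes

open Pool.Agent.MP_1376f1_pr Filter Topology

theorem result : Tendsto (fun n : ℕ =>
    (({σ : Order n | (∀ k, 1 ≤ k → k ≤ n - 1 → PropA (proc σ (mDeg σ k)) k ∧
        mA σ k = if Odd n ∧ Odd k then mNear σ k else mDeg σ k) ∧
        (Odd n → mA σ 1 < mDeg σ 1)}.ncard : ℝ) / Nat.card (Order n))) atTop (𝓝 1) := by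
  refine conv_lim (fun n G => (∃ k, Tight G k ∧ ¬ HasA G k) ∨ ((∀ v, 1 ≤ dg G v) ∧
    ∃ u v, s(u, v) ∈ G ∧ dg G u ≤ 1 ∧ dg G v ≤ 1)) _ (fun δ hδ => ?_) fun n hn σ h => ?_
  · obtain ⟨n1, h1⟩ := prob_main (half_pos hδ)
    obtain ⟨n2, h2⟩ := probE (half_pos hδ)
    refine ⟨max (max n1 n2) 1, fun n hn => ?_⟩
    have hp := isP_unif (pow_pos (show 0 < n by omega) 4)
    refine le_trans (le_trans (MP_d802e4_co.Pr_mono hp ?_) (MP_d802e4_co.Pr_or hp _ _))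
      ((add_le_add (h1 n (by omega)) (h2 n (by omega))).trans (add_halves δ).le)
    rintro ω ⟨P, hP, h | h⟩
    exacts [Or.inl ⟨P, hP, h⟩, Or.inr ⟨P, hP, h⟩]
  · have h0 : ∀ m k, Tight (first σ m) k → HasA (first σ m) k := fun m k hm => by
      by_contra hc
      exact h m (Or.inl ⟨k, hm, hc⟩)
    refine ⟨fun k hk hkn => conv σ h0 hk hkn, fun ho => ?_⟩
    rw [(conv σ h0 (k := 1) le_rfl (by omega)).2, if_pos ⟨ho, odd_one⟩]
    exact conv_lt hn σ fun m a u v b c d => h m (Or.inr ⟨a, u, v, b, c, d⟩)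

end Pool.Agent.Results.MP_1376f1_pr.HittingTimes
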